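import Mathlib
import Pool.Agent.H985.Deletion

set_option autoImplicit false

/-!
# Multiplicative Sidon subsets of sets of integers with few divisors

A finite set `G` of nonzero integers with at most `|G| ^ η` divisors each (`0 ≤ η ≤ 1`) contains a
multiplicative Sidon set with at least `|G| ^ (2 (1 - η) / 3) / 12` elements. The exponent is larger
than `1 / 2` for `η < 1 / 4`.
-/

namespace Pool.Agent.Results.MP_c028f8_co.FewDivisors

open Finset Pool.Agent.H985.Deletion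

theorem main (H : Finset ℤ) (h0 : ∀ a ∈ H, a ≠ 0) (hinj : Set.InjOn Int.natAbs (H : Set ℤ))
    (t q : ℕ) (hq : 1 ≤ q) (ht : ∀ a ∈ H, a.natAbs.divisors.card ≤ t) (h1 : 4 * t ^ 2 ≤ q ^ 2)
    (h2 : 4 * t ^ 2 * H.card ≤ q ^ 3) :
    ∃ B ⊆ H, (∀ a ∈ B, ∀ b ∈ B, ∀ c ∈ B, ∀ d ∈ B,
      a * b = c * d → (a = c ∧ b = d) ∨ (a = d ∧ b = c)) ∧ H.card ≤ 2 * q * B.card := by
  classical
  let dv : ℤ → Finset H := fun n => Finset.univ.filter (fun c : H => (c : ℤ) ∣ n)
  have hdv : ∀ a ∈ H, ∀ b ∈ H, (dv (a * b)).card ≤ t ^ 2 := by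
    intro a ha b hb
    have hab : a * b ≠ 0 := mul_ne_zero (h0 a ha) (h0 b hb)
    have e1 : (dv (a * b)).card ≤ (a * b).natAbs.divisors.card := by
      refine Finset.card_le_card_of_injOn (fun c => (c : ℤ).natAbs) ?_ ?_
      · intro c hc
        have hc' := (Finset.mem_filter.1 (Finset.mem_coe.1 hc)).2
        exact Finset.mem_coe.2 (Nat.mem_divisors.2
          ⟨Int.natAbs_dvd_natAbs.2 hc', Int.natAbs_ne_zero.2 hab⟩)
      · intro c _ d _ hcd
        exact Subtype.ext (hinj (Finset.mem_coe.2 c.2) (Finset.mem_coe.2 d.2) hcd)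
    have e2 : (a * b).natAbs.divisors.card ≤ a.natAbs.divisors.card * b.natAbs.divisors.card := by
      rw [Int.natAbs_mul, Nat.divisors_mul]
      exact Finset.card_mul_le
    calc (dv (a * b)).card ≤ a.natAbs.divisors.card * b.natAbs.divisors.card := e1.trans e2
      _ ≤ t * t := Nat.mul_le_mul (ht a ha) (ht b hb)
      _ = t ^ 2 := by ring
  let co : H → H → H → H := fun a b c =>
    if h : ∃ d : H, (a : ℤ) * b = c * d then h.choose else a
  have hco : ∀ a b c d : H, (a : ℤ) * b = c * d → co a b c = d := by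
    intro a b c d h
    have hex : ∃ d : H, (a : ℤ) * b = c * d := ⟨d, h⟩
    have e : co a b c = hex.choose := dif_pos hex
    rw [e]
    apply Subtype.ext
    exact mul_left_cancel₀ (h0 c c.2) (hex.choose_spec.symm.trans h)
  let T3 : Finset (Σ _ : H, H) := Finset.univ.sigma (fun a => dv ((a : ℤ) * a))
  let T4 : Finset (Σ _ : H × H, H) := Finset.univ.sigma (fun x => dv ((x.1 : ℤ) * x.2))
  have hT3 : T3.card ≤ H.card * t ^ 2 := by
    rw [Finset.card_sigma]
    calc ∑ a : H, (dv ((a : ℤ) * a)).card ≤ ∑ _a : H, t ^ 2 :=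
          Finset.sum_le_sum fun a _ => hdv a a.2 a a.2
      _ = H.card * t ^ 2 := by
          rw [Finset.sum_const, Finset.card_univ, Fintype.card_coe, smul_eq_mul]
  have hT4 : T4.card ≤ H.card ^ 2 * t ^ 2 := by
    rw [Finset.card_sigma]
    calc ∑ x : H × H, (dv ((x.1 : ℤ) * x.2)).card ≤ ∑ _x : H × H, t ^ 2 :=
          Finset.sum_le_sum fun x _ => hdv x.1 x.1.2 x.2 x.2.2
      _ = H.card ^ 2 * t ^ 2 := by
          rw [Finset.sum_const, Finset.card_univ, Fintype.card_prod, Fintype.card_coe, smul_eq_mul,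
            sq H.card]
  let Q3 : Finset (Finset H) :=
    (T3.image (fun x => ({x.1, x.2, co x.1 x.1 x.2} : Finset H))).filter (fun S => S.card = 3)
  let Q4 : Finset (Finset H) :=
    (T4.image (fun x => ({x.1.1, x.1.2, x.2, co x.1.1 x.1.2 x.2} : Finset H))).filter
      (fun S => S.card = 4)
  have hQ3 : Q3.card ≤ H.card * t ^ 2 :=
    (Finset.card_filter_le _ _).trans (Finset.card_image_le.trans hT3)
  have hQ4 : Q4.card ≤ H.card ^ 2 * t ^ 2 :=
    (Finset.card_filter_le _ _).trans (Finset.card_image_le.trans hT4)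
  obtain ⟨B, hB3, hB4, hB⟩ := deletion q hq Q3 Q4 (fun S hS => (Finset.mem_filter.1 hS).2)
    (fun S hS => (Finset.mem_filter.1 hS).2)
    (by
      rw [Fintype.card_coe]
      calc 4 * Q3.card ≤ 4 * (H.card * t ^ 2) := Nat.mul_le_mul_left _ hQ3
        _ = (4 * t ^ 2) * H.card := by ring
        _ ≤ _ := Nat.mul_le_mul_right _ h1)
    (by
      rw [Fintype.card_coe]
      calc 4 * Q4.card ≤ 4 * (H.card ^ 2 * t ^ 2) := Nat.mul_le_mul_left _ hQ4
        _ = (4 * t ^ 2 * H.card) * H.card := by ring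
        _ ≤ _ := Nat.mul_le_mul_right _ h2)
  have m3 : ∀ a c d : H, (a : ℤ) * a = c * d → a ≠ c → a ≠ d → c ≠ d →
      a ∈ B → c ∈ B → d ∈ B → False := by
    intro a c d h hac had hcd ha hc hd
    have hS : ({a, c, d} : Finset H) ∈ Q3 := by
      refine Finset.mem_filter.2 ⟨Finset.mem_image.2 ⟨⟨a, c⟩, ?_, ?_⟩,
        Finset.card_eq_three.2 ⟨a, c, d, hac, had, hcd, rfl⟩⟩
      · exact Finset.mem_sigma.2 ⟨Finset.mem_univ _, Finset.mem_filter.2
          ⟨Finset.mem_univ _, ⟨(d : ℤ), h⟩⟩⟩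
      · simp only [hco a a c d h]
    refine hB3 _ hS ?_
    intro x hx
    simp only [Finset.mem_insert, Finset.mem_singleton] at hx
    rcases hx with rfl | rfl | rfl <;> assumption
  have m4 : ∀ a b c d : H, (a : ℤ) * b = c * d → a ≠ b → a ≠ c → a ≠ d → b ≠ c → b ≠ d → c ≠ d →
      a ∈ B → b ∈ B → c ∈ B → d ∈ B → False := by
    intro a b c d h hab hac had hbc hbd hcd ha hb hc hd
    have hS : ({a, b, c, d} : Finset H) ∈ Q4 := by
      refine Finset.mem_filter.2 ⟨Finset.mem_image.2 ⟨⟨(a, b), c⟩, ?_, ?_⟩, ?_⟩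
      · exact Finset.mem_sigma.2 ⟨Finset.mem_univ _, Finset.mem_filter.2
          ⟨Finset.mem_univ _, ⟨(d : ℤ), h⟩⟩⟩
      · simp only [hco a b c d h]
      · rw [Finset.card_insert_of_notMem, Finset.card_insert_of_notMem,
          Finset.card_insert_of_notMem, Finset.card_singleton] <;> simp [*]
    refine hB4 _ hS ?_
    intro x hx
    simp only [Finset.mem_insert, Finset.mem_singleton] at hx
    rcases hx with rfl | rfl | rfl | rfl <;> assumption
  have key : ∀ a ∈ B, ∀ b ∈ B, ∀ c ∈ B, ∀ d ∈ B,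
      (a : ℤ) * b = c * d → (a = c ∧ b = d) ∨ (a = d ∧ b = c) := by
    intro a ha b hb c hc d hd h
    by_cases hac : a = c
    · subst hac
      exact Or.inl ⟨rfl, Subtype.ext (mul_left_cancel₀ (h0 a a.2) h)⟩
    by_cases had : a = d
    · subst had
      rw [mul_comm (c : ℤ) a] at h
      exact Or.inr ⟨rfl, Subtype.ext (mul_left_cancel₀ (h0 a a.2) h)⟩
    exfalso
    have hbc : b ≠ c := by
      intro hbc
      subst hbc
      rw [mul_comm (a : ℤ) b] at h
      exact had (Subtype.ext (mul_left_cancel₀ (h0 b b.2) h))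
    have hbd : b ≠ d := by
      intro hbd
      subst hbd
      exact hac (Subtype.ext (mul_right_cancel₀ (h0 b b.2) h))
    by_cases hab : a = b
    · subst hab
      by_cases hcd : c = d
      · subst hcd
        have h5 : (a : ℤ).natAbs = (c : ℤ).natAbs := by
          have h6 := congrArg Int.natAbs h
          rw [Int.natAbs_mul, Int.natAbs_mul] at h6
          exact Nat.mul_self_inj.1 h6
        exact hac (Subtype.ext (hinj (Finset.mem_coe.2 a.2) (Finset.mem_coe.2 c.2) h5))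
      · exact m3 a c d h hac had hcd ha hc hd
    · by_cases hcd : c = d
      · subst hcd
        exact m3 c a b h.symm (Ne.symm hac) (Ne.symm hbc) hab hc ha hb
      · exact m4 a b c d h hab hac had hbc hbd hcd ha hb hc hd
  refine ⟨B.map (Function.Embedding.subtype _), ?_, ?_, ?_⟩
  · intro x hx
    obtain ⟨y, _, rfl⟩ := Finset.mem_map.1 hx
    exact y.2
  · intro a ha b hb c hc d hd h
    obtain ⟨a', ha', rfl⟩ := Finset.mem_map.1 ha
    obtain ⟨b', hb', rfl⟩ := Finset.mem_map.1 hb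
    obtain ⟨c', hc', rfl⟩ := Finset.mem_map.1 hc
    obtain ⟨d', hd', rfl⟩ := Finset.mem_map.1 hd
    rcases key a' ha' b' hb' c' hc' d' hd' h with ⟨e1, e2⟩ | ⟨e1, e2⟩
    · exact Or.inl ⟨by rw [e1], by rw [e2]⟩
    · exact Or.inr ⟨by rw [e1], by rw [e2]⟩
  · rw [Finset.card_map]
    rwa [Fintype.card_coe] at hB

/-- A set with few divisors contains a large multiplicative Sidon set: integer version. -/
theorem nat_version (G : Finset ℤ) (h0 : ∀ a ∈ G, a ≠ 0) (t q : ℕ) (hq : 1 ≤ q)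
    (ht : ∀ a ∈ G, a.natAbs.divisors.card ≤ t) (h1 : 4 * t ^ 2 ≤ q ^ 2)
    (h2 : 4 * t ^ 2 * G.card ≤ q ^ 3) :
    ∃ B ⊆ G, (∀ a ∈ B, ∀ b ∈ B, ∀ c ∈ B, ∀ d ∈ B,
      a * b = c * d → (a = c ∧ b = d) ∨ (a = d ∧ b = c)) ∧ G.card ≤ 4 * q * B.card := by
  classical
  have hsplit : (G.filter (fun a => 0 < a)).card + (G.filter (fun a => ¬ 0 < a)).card = G.card :=
    Finset.card_filter_add_card_filter_not _
  obtain ⟨H, hHG, hH, hinj⟩ : ∃ H ⊆ G, G.card ≤ 2 * H.card ∧
      Set.InjOn Int.natAbs (H : Set ℤ) := by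
    rcases le_total (G.filter (fun a => ¬ 0 < a)).card (G.filter (fun a => 0 < a)).card with hc | hc
    · refine ⟨G.filter (fun a => 0 < a), Finset.filter_subset _ _, by omega, ?_⟩
      intro a ha b hb hab
      have e1 := (Finset.mem_filter.1 (Finset.mem_coe.1 ha)).2
      have e2 := (Finset.mem_filter.1 (Finset.mem_coe.1 hb)).2
      omega
    · refine ⟨G.filter (fun a => ¬ 0 < a), Finset.filter_subset _ _, by omega, ?_⟩
      intro a ha b hb hab
      have e1 := (Finset.mem_filter.1 (Finset.mem_coe.1 ha)).2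
      have e2 := (Finset.mem_filter.1 (Finset.mem_coe.1 hb)).2
      omega
  obtain ⟨B, hBH, hB, hcard⟩ := main H (fun a ha => h0 a (hHG ha)) hinj t q hq
    (fun a ha => ht a (hHG ha)) h1
    ((Nat.mul_le_mul_left _ (Finset.card_le_card hHG)).trans h2)
  refine ⟨B, hBH.trans hHG, hB, ?_⟩
  calc G.card ≤ 2 * H.card := hH
    _ ≤ 2 * (2 * q * B.card) := Nat.mul_le_mul_left _ hcard
    _ = _ := by ring

/-- Every finite nonempty set `G` of nonzero integers with at most `|G| ^ η` divisors each contains a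
multiplicative Sidon set with at least `|G| ^ (2 (1 - η) / 3) / 12` elements. -/
theorem result :
    ∀ η : ℝ, 0 ≤ η → η ≤ 1 → ∀ G : Finset ℤ, G.Nonempty → (∀ a ∈ G, a ≠ 0) →
      (∀ a ∈ G, (a.natAbs.divisors.card : ℝ) ≤ (G.card : ℝ) ^ η) →
      ∃ B ⊆ G, (∀ a ∈ B, ∀ b ∈ B, ∀ c ∈ B, ∀ d ∈ B,
        a * b = c * d → (a = c ∧ b = d) ∨ (a = d ∧ b = c)) ∧
        (G.card : ℝ) ^ (2 * (1 - η) / 3) / 12 ≤ (B.card : ℝ) := by
  intro η hη0 hη1 G hG h0 h
  have hN1 : (1 : ℝ) ≤ G.card := by exact_mod_cast hG.card_pos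
  have hN0 : (0 : ℝ) < G.card := by linarith
  set X : ℝ := (G.card : ℝ) ^ ((1 + 2 * η) / 3) with hX
  have hX1 : 1 ≤ X := Real.one_le_rpow hN1 (by positivity)
  set q : ℕ := ⌈2 * X⌉₊ with hqd
  have hq1 : 2 * X ≤ q := Nat.le_ceil _
  have hq2 : (q : ℝ) ≤ 3 * X := by
    have := Nat.ceil_lt_add_one (by positivity : 0 ≤ 2 * X)
    rw [hqd]
    linarith
  have hq : 1 ≤ q := by
    have : (1 : ℝ) ≤ q := by linarith
    exact_mod_cast this
  set t : ℕ := ⌊(G.card : ℝ) ^ η⌋₊ with htd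
  have ht1 : (t : ℝ) ≤ (G.card : ℝ) ^ η := Nat.floor_le (by positivity)
  have ht2 : (t : ℝ) ^ 2 ≤ (G.card : ℝ) ^ (2 * η) := by
    calc (t : ℝ) ^ 2 ≤ ((G.card : ℝ) ^ η) ^ 2 := pow_le_pow_left₀ (by positivity) ht1 2
      _ = (G.card : ℝ) ^ (2 * η) := by
          rw [← Real.rpow_natCast, ← Real.rpow_mul hN0.le]
          congr 1
          push_cast
          ring
  have hX2 : (G.card : ℝ) ^ (2 * η) ≤ X ^ 2 := by
    rw [hX, ← Real.rpow_natCast, ← Real.rpow_mul hN0.le]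
    refine Real.rpow_le_rpow_of_exponent_le hN1 ?_
    push_cast
    linarith
  have hX3 : (G.card : ℝ) ^ (2 * η) * G.card = X ^ 3 := by
    rw [hX, ← Real.rpow_natCast, ← Real.rpow_mul hN0.le]
    nth_rewrite 2 [← Real.rpow_one (G.card : ℝ)]
    rw [← Real.rpow_add hN0]
    congr 1
    push_cast
    ring
  obtain ⟨B, hBG, hB, hcard⟩ := nat_version G h0 t q hq (fun a ha => Nat.le_floor (h a ha))
    (by
      have : (4 : ℝ) * (t : ℝ) ^ 2 ≤ (q : ℝ) ^ 2 := by
        calc (4 : ℝ) * (t : ℝ) ^ 2 ≤ 4 * X ^ 2 := by linarith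
          _ = (2 * X) ^ 2 := by ring
          _ ≤ (q : ℝ) ^ 2 := pow_le_pow_left₀ (by positivity) hq1 2
      exact_mod_cast this)
    (by
      have : (4 : ℝ) * (t : ℝ) ^ 2 * G.card ≤ (q : ℝ) ^ 3 := by
        calc (4 : ℝ) * (t : ℝ) ^ 2 * G.card ≤ 4 * (G.card : ℝ) ^ (2 * η) * G.card := by gcongr
          _ = 4 * X ^ 3 := by rw [mul_assoc, hX3]
          _ ≤ (2 * X) ^ 3 := by nlinarith [pow_pos (by linarith : 0 < X) 3]
          _ ≤ (q : ℝ) ^ 3 := pow_le_pow_left₀ (by positivity) hq1 3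
      exact_mod_cast this)
  refine ⟨B, hBG, hB, ?_⟩
  have h5 : (G.card : ℝ) ≤ 4 * q * B.card := by exact_mod_cast hcard
  have h6 : (G.card : ℝ) ^ (2 * (1 - η) / 3) * X = G.card := by
    rw [hX, ← Real.rpow_add hN0, show 2 * (1 - η) / 3 + (1 + 2 * η) / 3 = 1 by ring, Real.rpow_one]
  have hX0 : 0 < X := lt_of_lt_of_le one_pos hX1
  have h7 : (G.card : ℝ) ^ (2 * (1 - η) / 3) * X ≤ (12 * B.card) * X := by
    rw [h6]
    calc (G.card : ℝ) ≤ 4 * q * B.card := h5
      _ ≤ 4 * (3 * X) * B.card := by gcongr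
      _ = _ := by ring
  have h8 := le_of_mul_le_mul_right h7 hX0
  generalize (G.card : ℝ) ^ (2 * (1 - η) / 3) = Y at *
  linarith

end Pool.Agent.Results.MP_c028f8_co.FewDivisors
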