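import Mathlib
import Pool.Agent.H985.SPPopK

set_option autoImplicit false

/-!
# Large Sidon subsets of sets of integers with unpopular primes or unpopular scales

Let `A` be a finite set of integers. An element `a ≠ 0` of `A` is called `K`-good if

* for some prime `p` and some `e` the exponent of `p` in `a` is not `e`, while it is `e` for all but
  at most `K` nonzero elements of `A` (for instance `p` divides `a` and at most `K` elements), or
* at most `K` elements `b` of `A` satisfy `|a| / 3 ≤ |b| ≤ 3 |a|`.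

If `A` has `g` elements which are `K`-good, then it contains an additive or multiplicative Sidon set
with at least `g / (4 K)` elements. With `K = |A| ^ (1 / 2 - δ)` this gives Sidon subsets of size
`c |A| ^ (1 / 2 + δ)`.
-/

namespace Pool.Agent.Results.MP_c028f8_co.UnpopularPrimes

open Pool.Agent.H985.SPPop Pool.Agent.H985.SPPopK

theorem main (A : Finset ℤ) (K : ℕ) :
    ∃ B ⊆ A,
      ((∀ a ∈ B, ∀ b ∈ B, ∀ c ∈ B, ∀ d ∈ B,
          a + b = c + d → (a = c ∧ b = d) ∨ (a = d ∧ b = c)) ∨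
       (∀ a ∈ B, ∀ b ∈ B, ∀ c ∈ B, ∀ d ∈ B,
          a * b = c * d → (a = c ∧ b = d) ∨ (a = d ∧ b = c))) ∧
      ∀ G ⊆ A, (∀ a ∈ G, a ≠ 0 ∧
        ((∃ p e : ℕ, p.Prime ∧ a.natAbs.factorization p ≠ e ∧
          (A.filter fun b => b ≠ 0 ∧ b.natAbs.factorization p ≠ e).card ≤ K) ∨
        (A.filter fun b => a.natAbs ≤ 3 * b.natAbs ∧ b.natAbs ≤ 3 * a.natAbs).card ≤ K)) →
        G.card ≤ 4 * K * B.card := by
  classical
  let A' := A.erase 0
  let G1 := A'.filter fun a => ∃ p e : ℕ, p.Prime ∧ a.natAbs.factorization p ≠ e ∧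
    (A.filter fun b => b ≠ 0 ∧ b.natAbs.factorization p ≠ e).card ≤ K
  let G2 := A'.filter fun a =>
    (A.filter fun b => a.natAbs ≤ 3 * b.natAbs ∧ b.natAbs ≤ 3 * a.natAbs).card ≤ K
  have hG1A : G1 ⊆ A := (Finset.filter_subset _ _).trans (Finset.erase_subset _ _)
  have hG2A : G2 ⊆ A := (Finset.filter_subset _ _).trans (Finset.erase_subset _ _)
  have h01 : ∀ a ∈ G1, a ≠ 0 := fun a ha => Finset.ne_of_mem_erase (Finset.mem_filter.1 ha).1
  have hG : ∀ G ⊆ A, (∀ a ∈ G, a ≠ 0 ∧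
        ((∃ p e : ℕ, p.Prime ∧ a.natAbs.factorization p ≠ e ∧
          (A.filter fun b => b ≠ 0 ∧ b.natAbs.factorization p ≠ e).card ≤ K) ∨
        (A.filter fun b => a.natAbs ≤ 3 * b.natAbs ∧ b.natAbs ≤ 3 * a.natAbs).card ≤ K)) →
        G.card ≤ G1.card + G2.card := by
    intro G hGA h
    refine (Finset.card_le_card ?_).trans (Finset.card_union_le G1 G2)
    intro a ha
    obtain ⟨ha0, h1 | h2⟩ := h a ha
    · exact Finset.mem_union_left _ (Finset.mem_filter.2 ⟨Finset.mem_erase.2 ⟨ha0, hGA ha⟩, h1⟩)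
    · exact Finset.mem_union_right _ (Finset.mem_filter.2 ⟨Finset.mem_erase.2 ⟨ha0, hGA ha⟩, h2⟩)
  rcases le_total G2.card G1.card with hc | hc
  · -- many elements with an unpopular prime
    have h : ∀ c ∈ G1, ∃ p e : ℕ, nu p c ≠ e ∧ (G1.filter (fun a => nu p a ≠ e)).card ≤ K := by
      intro c hc
      obtain ⟨p, e, _, hp1, hp2⟩ := (Finset.mem_filter.1 hc).2
      refine ⟨p, e, hp1, le_trans (Finset.card_le_card ?_) hp2⟩
      intro a ha
      have ha' := Finset.mem_filter.1 ha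
      exact Finset.mem_filter.2 ⟨hG1A ha'.1, h01 a ha'.1, ha'.2⟩
    choose! P e hP1 hP2 using h
    obtain ⟨I, hIS, hI, hcard⟩ := exists_indep (fun c a => nu (P c) a ≠ e c) K G1
      (fun c hc => hP2 c hc) (fun c hc => hP1 c hc)
    refine ⟨I, hIS.trans hG1A, Or.inr ?_, ?_⟩
    · intro a ha b hb c hc' d hd habcd
      have ha0 := h01 a (hIS ha)
      have hI' : ∀ x ∈ I, x ≠ a → nu (P a) x = e a := fun x hx hxa => not_not.1 (hI a ha x hx hxa)
      by_cases hac : a = c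
      · subst hac
        exact Or.inl ⟨rfl, mul_left_cancel₀ ha0 habcd⟩
      by_cases had : a = d
      · subst had
        rw [mul_comm c a] at habcd
        exact Or.inr ⟨rfl, mul_left_cancel₀ ha0 habcd⟩
      exfalso
      have h1 := congrArg (nu (P a)) habcd
      rw [nu_mul _ ha0 (h01 b (hIS hb)), nu_mul _ (h01 c (hIS hc')) (h01 d (hIS hd)),
        hI' c hc' (Ne.symm hac), hI' d hd (Ne.symm had)] at h1
      have h2 := hP1 a (hIS ha)
      by_cases hba : b = a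
      · subst hba
        omega
      · rw [hI' b hb hba] at h1
        omega
    · intro G hGA hg
      have h1 := hG G hGA hg
      have h2 : 4 * K * I.card = 2 * (2 * K * I.card) := by ring
      omega
  · -- many elements with an unpopular scale
    obtain ⟨I, hIS, hI, hcard⟩ := exists_indep
      (fun c a : ℤ => c.natAbs ≤ 3 * a.natAbs ∧ a.natAbs ≤ 3 * c.natAbs) K G2
      (fun c hc => (Finset.card_le_card (Finset.filter_subset_filter _ hG2A)).trans
        (Finset.mem_filter.1 hc).2) (fun c _ => ⟨by omega, by omega⟩)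
    refine ⟨I, hIS.trans hG2A, Or.inl ?_, ?_⟩
    · intro a ha b hb c hc' d hd habcd
      have hI' : ∀ x ∈ I, ∀ y ∈ I, x ≠ y → 3 * x.natAbs < y.natAbs ∨ 3 * y.natAbs < x.natAbs := by
        intro x hx y hy hxy
        have := hI x hx y hy (Ne.symm hxy)
        omega
      have e1 := hI' a ha c hc'
      have e2 := hI' a ha d hd
      have e3 := hI' b hb c hc'
      have e4 := hI' b hb d hd
      have e5 := hI' a ha b hb
      have e6 := hI' c hc' d hd
      by_cases hac : a = c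
      · left
        omega
      by_cases had : a = d
      · right
        omega
      exfalso
      have f1 := e1 hac
      have f2 := e2 had
      have f3 := e3 (by omega)
      have f4 := e4 (by omega)
      by_cases hab : a = b
      · by_cases hcd : c = d
        · omega
        · have f6 := e6 hcd
          omega
      · have f5 := e5 hab
        by_cases hcd : c = d
        · omega
        · have f6 := e6 hcd
          omega
    · intro G hGA hg
      have h1 := hG G hGA hg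
      have h2 : 4 * K * I.card = 2 * (2 * K * I.card) := by ring
      omega

/-- Sidon subsets of sets of integers with unpopular primes or unpopular scales. -/
theorem result :
    (∀ (A : Finset ℤ) (K : ℕ), ∃ B ⊆ A,
      ((∀ a ∈ B, ∀ b ∈ B, ∀ c ∈ B, ∀ d ∈ B,
          a + b = c + d → (a = c ∧ b = d) ∨ (a = d ∧ b = c)) ∨
       (∀ a ∈ B, ∀ b ∈ B, ∀ c ∈ B, ∀ d ∈ B,
          a * b = c * d → (a = c ∧ b = d) ∨ (a = d ∧ b = c))) ∧
      ∀ G ⊆ A, (∀ a ∈ G, a ≠ 0 ∧
        ((∃ p e : ℕ, p.Prime ∧ a.natAbs.factorization p ≠ e ∧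
          (A.filter fun b => b ≠ 0 ∧ b.natAbs.factorization p ≠ e).card ≤ K) ∨
        (A.filter fun b => a.natAbs ≤ 3 * b.natAbs ∧ b.natAbs ≤ 3 * a.natAbs).card ≤ K)) →
        G.card ≤ 4 * K * B.card) ∧
    (∀ (δ : ℝ) (A G : Finset ℤ), G ⊆ A → 0 < G.card →
      (∀ a ∈ G, a ≠ 0 ∧
        ((∃ p e : ℕ, p.Prime ∧ a.natAbs.factorization p ≠ e ∧
          ((A.filter fun b => b ≠ 0 ∧ b.natAbs.factorization p ≠ e).card : ℝ) ≤
            (A.card : ℝ) ^ ((1 : ℝ) / 2 - δ)) ∨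
        ((A.filter fun b => a.natAbs ≤ 3 * b.natAbs ∧ b.natAbs ≤ 3 * a.natAbs).card : ℝ) ≤
            (A.card : ℝ) ^ ((1 : ℝ) / 2 - δ))) →
      ∃ B ⊆ A,
      ((∀ a ∈ B, ∀ b ∈ B, ∀ c ∈ B, ∀ d ∈ B,
          a + b = c + d → (a = c ∧ b = d) ∨ (a = d ∧ b = c)) ∨
       (∀ a ∈ B, ∀ b ∈ B, ∀ c ∈ B, ∀ d ∈ B,
          a * b = c * d → (a = c ∧ b = d) ∨ (a = d ∧ b = c))) ∧
      (G.card : ℝ) / (4 * A.card) * (A.card : ℝ) ^ ((1 : ℝ) / 2 + δ) ≤ (B.card : ℝ)) := by
  refine ⟨main, ?_⟩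
  intro δ A G hGA hG h
  have hA : 0 < A.card := lt_of_lt_of_le hG (Finset.card_le_card hGA)
  have hAr : (0 : ℝ) < A.card := by exact_mod_cast hA
  obtain ⟨B, hBA, hB, h1⟩ := main A ⌊(A.card : ℝ) ^ ((1 : ℝ) / 2 - δ)⌋₊
  refine ⟨B, hBA, hB, ?_⟩
  have h2 := h1 G hGA (by
    intro a ha
    obtain ⟨ha0, ⟨p, e, hp, hp1, hp2⟩ | h3⟩ := h a ha
    · exact ⟨ha0, Or.inl ⟨p, e, hp, hp1, Nat.le_floor hp2⟩⟩
    · exact ⟨ha0, Or.inr (Nat.le_floor h3)⟩)
  have hpos : (0 : ℝ) < (A.card : ℝ) ^ ((1 : ℝ) / 2 - δ) := Real.rpow_pos_of_pos hAr _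
  have h3 : (G.card : ℝ) ≤ 4 * (A.card : ℝ) ^ ((1 : ℝ) / 2 - δ) * B.card := by
    calc (G.card : ℝ) ≤ 4 * (⌊(A.card : ℝ) ^ ((1 : ℝ) / 2 - δ)⌋₊ : ℝ) * B.card := by
          exact_mod_cast h2
      _ ≤ _ := by
          have := Nat.floor_le hpos.le
          gcongr
  have h4 : (A.card : ℝ) ^ ((1 : ℝ) / 2 - δ) * (A.card : ℝ) ^ ((1 : ℝ) / 2 + δ) = A.card := by
    rw [← Real.rpow_add hAr, show (1 : ℝ) / 2 - δ + ((1 : ℝ) / 2 + δ) = 1 by ring, Real.rpow_one]
  have hpos' : (0 : ℝ) < (A.card : ℝ) ^ ((1 : ℝ) / 2 + δ) := Real.rpow_pos_of_pos hAr _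
  generalize (A.card : ℝ) ^ ((1 : ℝ) / 2 - δ) = X at *
  generalize (A.card : ℝ) ^ ((1 : ℝ) / 2 + δ) = Y at *
  rw [div_mul_eq_mul_div, div_le_iff₀ (by positivity)]
  calc (G.card : ℝ) * Y ≤ (4 * X * B.card) * Y := mul_le_mul_of_nonneg_right h3 hpos'.le
    _ = B.card * (4 * (X * Y)) := by ring
    _ = B.card * (4 * A.card) := by rw [h4]

end Pool.Agent.Results.MP_c028f8_co.UnpopularPrimes
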